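import Pool.Agent.H539R3.KC.Main

/-!
# The Kripke criterion does not imply strong Kripke completeness

The witness is the logic of all finite transitive irreflexive frames together with the
three-element cluster, i.e. the intersection of `GL` with the logic of the three-element cluster.

* It is not strongly Kripke complete: `δ`, `◇p₀` and all `□(pᵢ → ◇pᵢ₊₁)` are finitely satisfiable,
  where `δ = ◇⊤ → ◇□⊥`, but the logic contains `δ → (□(□p → p) → □p)`.
* It lacks the Craig interpolation property, so that the Kripke criterion is not a mere
  consequence of interpolation and weak completeness: on the three-element cluster the formulas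
  `◇(r ∧ p) ∧ ◇(r ∧ ¬p) ∧ ◇¬r` and `◇(¬r ∧ q) ∧ ◇(¬r ∧ ¬q) ∧ ◇r` have `r`-bisimilar models but no
  common model.
* It has the Kripke criterion: if formulas cannot be separated in their common variables over
  finite `GL`-models, they have a common finite `GL`-model; if they cannot be separated over the
  cluster, they have bisimilar models there; otherwise the two separating formulas are combined
  with the help of `δ`.
-/

set_option autoImplicit false

namespace Pool.Agent.Results.MP_e3277b_lc.KripkeCriterionNotStrong

open H539R3.IEP H539R3.KC

universe u

/-- **There is a normal modal logic which has the Kripke criterion but is not strongly Kripke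
complete; moreover it lacks the Craig interpolation property.** The Kripke frames in question live
in an arbitrary universe `u`. -/
theorem result : ∃ L : Set Form,
    Normal L ∧ KripkeCriterion.{u} L ∧ ¬ StronglyKripkeComplete.{u} L ∧ ¬ CIP L :=
  ⟨LL, LL_normal, LL_criterion, not_strong, no_CIP⟩

end Pool.Agent.Results.MP_e3277b_lc.KripkeCriterionNotStrong
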